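import Mathlib

/-!
# Shadowing for the inverse of a closed relation containing the diagonal

For a closed relation `G` on a compact Hausdorff space which contains the diagonal and has the
(2,2)-shadowing property, the inverse relation has the (2,2)-shadowing property, and hence also
the (1,2)-shadowing property.
-/

open Set Filter Topology Uniformity

namespace Pool.Agent.Results.MP_c44e76_an.InverseShadowing

variable {X : Type*}

/-- `G⁻¹`. -/
def inv (G : Set (X × X)) : Set (X × X) := {p | (p.2, p.1) ∈ G}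

/-- The domain `D(G)`. -/
def Dom (G : Set (X × X)) : Set X := {x | ∃ y, (x, y) ∈ G}

/-- Trajectories of `G`. -/
def Traj (G : Set (X × X)) (x : ℕ → X) : Prop := ∀ n, (x n, x (n + 1)) ∈ G

/-- `(V,1)`-pseudo-orbits. -/
def PseudoOrbit1 (G V : Set (X × X)) (x : ℕ → X) : Prop :=
  (∀ n, x n ∈ Dom G) ∧ ∀ n y, (x n, y) ∈ G → (x (n + 1), y) ∈ V

/-- `(V,2)`-pseudo-orbits. -/
def PseudoOrbit2 (G V : Set (X × X)) (x : ℕ → X) : Prop :=
  (∀ n, x n ∈ Dom G) ∧ ∀ n, ∃ y, (x n, y) ∈ G ∧ (x (n + 1), y) ∈ V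

/-- `y` `(U,2)`-shadows the sequence `x` (in particular `y` is legal). -/
def Shadows2 (G U : Set (X × X)) (y : X) (x : ℕ → X) : Prop :=
  ∃ t : ℕ → X, t 0 = y ∧ Traj G t ∧ ∀ n, (x n, t n) ∈ U

/-- The (2,2)-shadowing property. -/
def Shadowing22 [UniformSpace X] (G : Set (X × X)) : Prop :=
  ∀ U ∈ 𝓤 X, ∃ V ∈ 𝓤 X, ∀ x : ℕ → X, PseudoOrbit2 G V x → ∃ y, Shadows2 G U y x

/-- The (1,2)-shadowing property. -/
def Shadowing12 [UniformSpace X] (G : Set (X × X)) : Prop :=
  ∀ U ∈ 𝓤 X, ∃ V ∈ 𝓤 X, ∀ x : ℕ → X, PseudoOrbit1 G V x → ∃ y, Shadows2 G U y x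

theorem shadowing12_of_shadowing22 [UniformSpace X] {G : Set (X × X)} (h : Shadowing22 G) :
    Shadowing12 G := by
  intro U hU
  obtain ⟨V, hV, h⟩ := h U hU
  refine ⟨V, hV, fun x hx => h x ⟨hx.1, fun n => ?_⟩⟩
  obtain ⟨y, hy⟩ := hx.1 n
  exact ⟨y, hy, hx.2 n y hy⟩

theorem shadowing22_inv [UniformSpace X] [CompactSpace X] [T2Space X] {G : Set (X × X)}
    (hG : IsClosed G) (hd : ∀ x, (x, x) ∈ G) (h : Shadowing22 G) : Shadowing22 (inv G) := by
  intro U hU
  obtain ⟨U1, ⟨hU1, hU1c⟩, hU1U⟩ := uniformity_hasBasis_closed.mem_iff.1 hU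
  obtain ⟨U', hU', hU'U⟩ := comp_mem_uniformity_sets hU1
  obtain ⟨V', hV', hsh⟩ := h U' hU'
  obtain ⟨V, hV, hVs, hVV⟩ := symm_of_uniformity (inter_mem hV' hU')
  refine ⟨V, hV, fun x hx => ?_⟩
  choose y hyG hyV using hx.2
  let w : ℕ → X := fun n => Nat.casesOn n (x 0) y
  have hw0 : w 0 = x 0 := rfl
  have hws : ∀ n, w (n + 1) = y n := fun n => rfl
  have hwV : ∀ n, (x n, w n) ∈ V := by
    intro n
    cases n with
    | zero => exact refl_mem_uniformity hV
    | succ n => exact hyV n
  have hwG : ∀ n, (w (n + 1), x n) ∈ G := fun n => hyG n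
  -- finite shadowing
  have key : ∀ N : ℕ, ∃ t : ℕ → X, Traj (inv G) t ∧ ∀ n ≤ N, (x n, t n) ∈ U1 := by
    intro N
    obtain ⟨_, s, -, hs, hsU⟩ := hsh (fun k => w (N - k)) (by
      refine ⟨fun n => ⟨_, hd _⟩, fun n => ?_⟩
      by_cases hn : n < N
      · refine ⟨x (N - (n + 1)), ?_, ?_⟩
        · have : N - n = (N - (n + 1)) + 1 := by omega
          show (w (N - n), x (N - (n + 1))) ∈ G
          rw [this]
          exact hwG _
        · exact (hVV (hVs.symm _ _ (hwV _))).1
      · refine ⟨w 0, ?_, ?_⟩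
        · have : N - n = 0 := by omega
          show (w (N - n), w 0) ∈ G
          rw [this]
          exact hd _
        · have : N - (n + 1) = 0 := by omega
          show (w (N - (n + 1)), w 0) ∈ V'
          rw [this]
          exact refl_mem_uniformity hV')
    refine ⟨fun n => s (N - n), fun n => ?_, fun n hn => ?_⟩
    · show (s (N - (n + 1)), s (N - n)) ∈ G
      by_cases hn : n < N
      · have : N - n = (N - (n + 1)) + 1 := by omega
        rw [this]
        exact hs _
      · have h1 : N - (n + 1) = 0 := by omega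
        have h2 : N - n = 0 := by omega
        rw [h1, h2]
        exact hd _
    · refine hU'U ?_
      refine ⟨w n, (hVV (hwV n)).2, ?_⟩
      have := hsU (N - n)
      simpa [Nat.sub_sub_self hn] using this
  -- compactness
  let K : ℕ → Set (ℕ → X) := fun N => {t | Traj (inv G) t ∧ ∀ n ≤ N, (x n, t n) ∈ U1}
  have hKc : ∀ N, IsClosed (K N) := by
    intro N
    have h1 : IsClosed {t : ℕ → X | Traj (inv G) t} := by
      have : {t : ℕ → X | Traj (inv G) t} = ⋂ n, {t : ℕ → X | (t (n + 1), t n) ∈ G} := by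
        ext t; simp [Traj, inv]
      rw [this]
      refine isClosed_iInter fun n => ?_
      exact hG.preimage ((continuous_apply (n + 1)).prodMk (continuous_apply n))
    have h2 : IsClosed {t : ℕ → X | ∀ n ≤ N, (x n, t n) ∈ U1} := by
      have : {t : ℕ → X | ∀ n ≤ N, (x n, t n) ∈ U1}
          = ⋂ n, ⋂ (_ : n ≤ N), {t : ℕ → X | (x n, t n) ∈ U1} := by
        ext t; simp
      rw [this]
      refine isClosed_iInter fun n => isClosed_iInter fun _ => ?_
      exact hU1c.preimage (continuous_const.prodMk (continuous_apply n))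
    exact h1.inter h2
  obtain ⟨t, ht⟩ := IsCompact.nonempty_iInter_of_sequence_nonempty_isCompact_isClosed K
    (fun N t ht => ⟨ht.1, fun n hn => ht.2 n (by omega)⟩)
    (fun N => key N) (hKc 0).isCompact hKc
  rw [mem_iInter] at ht
  exact ⟨t 0, t, rfl, (ht 0).1, fun n => hU1U ((ht n).2 n le_rfl)⟩

/-- **Q1 and Q2, affirmative answers.** If `G` is a (non-empty) closed relation on a non-empty
compact Hausdorff space, `G` contains the diagonal and has the (2,2)-shadowing property, then
`G⁻¹` has the (2,2)-shadowing property and the (1,2)-shadowing property. -/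
theorem result {X : Type*} [UniformSpace X] [CompactSpace X] [T2Space X]
    (G : Set (X × X)) (hG : IsClosed G) (hd : ∀ x, (x, x) ∈ G) (h : Shadowing22 G) :
    Shadowing22 (inv G) ∧ Shadowing12 (inv G) :=
  ⟨shadowing22_inv hG hd h, shadowing12_of_shadowing22 (shadowing22_inv hG hd h)⟩

end Pool.Agent.Results.MP_c44e76_an.InverseShadowing
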